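import Pool.Agent.Helper55.RT.Spec3
import Pool.Agent.Helper55.RL.Root
import Pool.Graph.R_seed8.TH115.GD.Ext

/-!
# The finite Galois extension of the field of constants given by a representation modulo `p`
-/

set_option autoImplicit false
set_option linter.all false

open Polynomial IsDedekindDomain
open scoped Classical

namespace Pool.Agent.Helper44.Thin.KMM

open Pool.Agent.TH115.GD Pool.Agent.Helper55.RT
open Pool.Agent.Helper55.RG hiding em_inj VanishL VanishExt
open Pool.Agent.Helper55.RL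

section a

variable {k k' K F : Type} [Field k] [Field k'] [Algebra k k'] [Field K]
    [Algebra k[X] K] [Field F] [Algebra k'[X] F] [IsFractionRing k'[X] F] [Algebra K F]

theorem exists_r (hT : IsTower k k' K F) :
    ∃ r : (Sep F ≃ₐ[K] Sep F) →* (k' ≃ₐ[k] k'), Function.Surjective r ∧
      ∀ (τ : Sep F ≃ₐ[K] Sep F) (p : k'[X]), τ (em k' F (Sep F) p) =
        em k' F (Sep F) (p.map (r τ : k' →+* k')) := by
  haveI := hT.sep
  haveI := hT.fracK
  have h1 : ∀ τ : Sep F ≃ₐ[K] Sep F, ∃ s : k' ≃ₐ[k] k', ∀ p : k'[X],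
      τ (em k' F (Sep F) p) = em k' F (Sep F) (p.map (s : k' →+* k')) :=
    fun τ => restr hT.map τ
  choose s hs using h1
  have hc : ∀ (τ : Sep F ≃ₐ[K] Sep F) (c : k'), τ (em k' F (Sep F) (C c)) =
      em k' F (Sep F) (C (s τ c)) := by
    intro τ c
    rw [hs, Polynomial.map_C]
    rfl
  have huniq : ∀ (τ : Sep F ≃ₐ[K] Sep F) (s' : k' ≃ₐ[k] k'),
      (∀ c : k', τ (em k' F (Sep F) (C c)) = em k' F (Sep F) (C (s' c))) → s τ = s' := by
    intro τ s' h
    ext c
    apply em_inj (k' := k') (F := F)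
    show em k' F (Sep F) (C (s τ c)) = em k' F (Sep F) (C (s' c))
    rw [← hc, h]
  refine ⟨MonoidHom.mk' s ?_, ?_, fun τ p => hs τ p⟩
  · intro σ τ
    apply huniq
    intro c
    rw [AlgEquiv.mul_apply, hc, hc]
    rfl
  · intro s'
    obtain ⟨τ, hτ⟩ := lift (Ω := Sep F) hT.map s'
    refine ⟨τ, huniq τ s' fun c => ?_⟩
    have := hτ (C c)
    rw [Polynomial.map_C] at this
    exact this

theorem em_alg (hT : IsTower k k' K F) (x : k) : em k' F (Sep F) (C (algebraMap k k' x)) =
    algebraMap K (Sep F) (algebraMap k[X] K (C x)) := by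
  rw [IsScalarTower.algebraMap_apply K F (Sep F), hT.map, Polynomial.map_C]
  rfl

theorem adj_em (hT : IsTower k k' K F) {S : Set k'} {x : k'}
    (hx : x ∈ IntermediateField.adjoin k S) :
    em k' F (Sep F) (C x) ∈ IntermediateField.adjoin K ((fun c => em k' F (Sep F) (C c)) '' S) := by
  induction hx using IntermediateField.adjoin_induction with
  | mem x hx => exact IntermediateField.subset_adjoin _ _ ⟨x, hx, rfl⟩
  | algebraMap x =>
    rw [em_alg hT]
    exact IntermediateField.algebraMap_mem _ _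
  | add x y _ _ hx hy => rw [map_add, map_add]; exact add_mem hx hy
  | inv x _ hx =>
    have : em k' F (Sep F) (C x⁻¹) = (em k' F (Sep F) (C x))⁻¹ :=
      map_inv₀ ((em k' F (Sep F)).comp C) x
    rw [this]
    exact inv_mem hx
  | mul x y _ _ hx hy => rw [map_mul, map_mul]; exact mul_mem hx hy

theorem r_cont (hT : IsTower k k' K F) {r : (Sep F ≃ₐ[K] Sep F) →* (k' ≃ₐ[k] k')}
    (hr : ∀ (τ : Sep F ≃ₐ[K] Sep F) (c : k'), τ (em k' F (Sep F) (C c)) =
      em k' F (Sep F) (C (r τ c))) [Algebra.IsAlgebraic K (Sep F)] : Continuous r := by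
  apply continuous_of_continuousAt_one
  rw [ContinuousAt, map_one]
  intro A hA
  rw [krullTopology_mem_nhds_one_iff] at hA
  obtain ⟨E, hE, hEA⟩ := hA
  rw [Filter.mem_map, krullTopology_mem_nhds_one_iff]
  obtain ⟨S, hS⟩ := IntermediateField.essFiniteType_iff.1
    (inferInstance : Algebra.EssFiniteType k E)
  haveI : Finite ((fun c => em k' F (Sep F) (C c)) '' (S : Set k')) :=
    (S.finite_toSet.image _).to_subtype
  refine ⟨IntermediateField.adjoin K ((fun c => em k' F (Sep F) (C c)) '' (S : Set k')),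
    IntermediateField.finiteDimensional_adjoin fun x _ =>
      Algebra.IsIntegral.isIntegral (R := K) x, ?_⟩
  intro σ hσ
  apply hEA
  rw [SetLike.mem_coe, IntermediateField.mem_fixingSubgroup_iff] at hσ ⊢
  intro x hx
  apply em_inj (k' := k') (F := F)
  show em k' F (Sep F) (C (r σ x)) = em k' F (Sep F) (C x)
  rw [← hr]
  apply hσ
  apply adj_em hT
  rw [hS]
  exact hx

end a

theorem main : Pool.Agent.Helper55.RT.Q_KMM := by
  intro p _ k k' K F _ _ _ _ _ _ _ _ _ _ hT m δ hδ hgeo
  haveI := hT.sep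
  haveI := hT.fracK
  haveI : IsSepClosure K (Sep F) := sepKΩ hT.map
  haveI : Algebra.IsSeparable K (Sep F) := IsSepClosure.separable
  haveI : IsGalois K (Sep F) := inferInstance
  haveI : Algebra.IsSeparable k k' := IsSepClosure.separable
  haveI : IsGalois k k' := inferInstance
  obtain ⟨r, hrs, hr⟩ := exists_r hT
  have hrc' : ∀ (τ : Sep F ≃ₐ[K] Sep F) (c : k'), τ (em k' F (Sep F) (C c)) =
      em k' F (Sep F) (C (r τ c)) := by
    intro τ c
    rw [hr, Polynomial.map_C]
    rfl
  have hrc : Continuous r := r_cont hT hrc'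
  let δ' : (Sep F ≃ₐ[K] Sep F) →* GL (Fin m) (ZMod p) :=
    (Matrix.GeneralLinearGroup.map (PadicInt.toZMod : ℤ_[p] →+* ZMod p)).comp δ
  have hmem : ∀ τ, τ ∈ δ'.ker ↔ ∀ i j, (p : ℤ_[p]) ∣ ((δ τ).1 - 1) i j := by
    intro τ
    have h1 : ∀ x : ℤ_[p], (p : ℤ_[p]) ∣ x ↔ (PadicInt.toZMod x : ZMod p) = 0 := by
      intro x
      rw [← RingHom.mem_ker, PadicInt.ker_toZMod, PadicInt.maximalIdeal_eq_span_p,
        Ideal.mem_span_singleton]
    rw [MonoidHom.mem_ker, Units.ext_iff, ← Matrix.ext_iff]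
    refine forall_congr' fun i => forall_congr' fun j => ?_
    rw [h1, Matrix.sub_apply, map_sub, sub_eq_zero]
    have h2 : (δ' τ).1 i j = PadicInt.toZMod ((δ τ).1 i j) := rfl
    rw [h2]
    have h3 : ((1 : GL (Fin m) (ZMod p)) : Matrix (Fin m) (Fin m) (ZMod p)) i j =
        PadicInt.toZMod ((1 : Matrix (Fin m) (Fin m) ℤ_[p]) i j) := by
      rw [Units.val_one, Matrix.one_apply, Matrix.one_apply]
      split_ifs <;> simp
    rw [h3]
  have hopen : IsOpen (δ'.ker : Set (Sep F ≃ₐ[K] Sep F)) := by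
    have : (δ'.ker : Set (Sep F ≃ₐ[K] Sep F)) =
        ⋂ i, ⋂ j, {τ | ‖((δ τ).1 - 1) i j‖ < 1} := by
      ext τ
      rw [SetLike.mem_coe, hmem]
      simp only [Set.mem_iInter, Set.mem_setOf_eq, PadicInt.norm_lt_one_iff_dvd]
    rw [this]
    refine isOpen_iInter_of_finite fun i => isOpen_iInter_of_finite fun j => ?_
    have hc : Continuous fun τ => ((δ τ).1 - 1) i j :=
      ((Units.continuous_val.comp hδ).sub continuous_const).matrix_elem i j
    exact isOpen_lt hc.norm continuous_const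
  have hclosed : IsClosed (δ'.ker : Set (Sep F ≃ₐ[K] Sep F)) :=
    Subgroup.isClosed_of_isOpen _ hopen
  have hker : r.ker ≤ δ'.ker := by
    intro τ hτ
    rw [MonoidHom.mem_ker] at hτ
    have h1 : ∀ q : k'[X], τ (em k' F (Sep F) q) = em k' F (Sep F) q := by
      intro q
      rw [hr, hτ]
      congr 1
      exact Polynomial.map_id
    have h2 : ∀ x : F, τ (algebraMap F (Sep F) x) = algebraMap F (Sep F) x := by
      intro x
      obtain ⟨n, d, -, rfl⟩ := IsFractionRing.div_surjective (A := k'[X]) x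
      rw [map_div₀, map_div₀]
      have h3 := h1 n
      have h4 := h1 d
      unfold Pool.Agent.Helper55.RG.em at h3 h4
      rw [RingHom.comp_apply] at h3 h4
      rw [h3, h4]
    let σ : Sep F ≃ₐ[F] Sep F := AlgEquiv.ofRingEquiv (f := τ.toRingEquiv) h2
    have h5 : σ.restrictScalars K = τ := by
      ext x
      rfl
    have h6 := hgeo σ
    rw [h5] at h6
    rw [MonoidHom.mem_ker]
    show Matrix.GeneralLinearGroup.map _ (δ τ) = 1
    rw [h6, map_one]
  haveI : T2Space (k' ≃ₐ[k] k') := krullTopology_t2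
  set N' : Subgroup (k' ≃ₐ[k] k') := δ'.ker.map r with hN'
  have hN'c : IsClosed (N' : Set (k' ≃ₐ[k] k')) := by
    rw [hN', Subgroup.coe_map]
    exact (hclosed.isCompact.image hrc).isClosed
  have hidx : N'.index ∣ Nat.card (GL (Fin m) (ZMod p)) := by
    rw [hN', Subgroup.index_map_eq _ hrs hker, Subgroup.index_ker]
    exact Subgroup.card_subgroup_dvd_card _
  haveI : NeZero p := ⟨(Fact.out : p.Prime).ne_zero⟩
  haveI : Finite (GL (Fin m) (ZMod p)) := inferInstance
  have hidx0 : N'.index ≠ 0 := by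
    intro h
    rw [h, zero_dvd_iff] at hidx
    exact Nat.card_pos.ne' hidx
  haveI : N'.FiniteIndex := ⟨hidx0⟩
  have hN'o : IsOpen (N' : Set (k' ≃ₐ[k] k')) := Subgroup.isOpen_of_isClosed_of_finiteIndex _ hN'c
  haveI hnorm : N'.Normal := Subgroup.Normal.map (inferInstance : δ'.ker.Normal) r hrs
  have hfix : (IntermediateField.fixedField N').fixingSubgroup = N' :=
    InfiniteGalois.fixingSubgroup_fixedField (⟨N', hN'c⟩ : ClosedSubgroup (k' ≃ₐ[k] k'))
  refine ⟨IntermediateField.fixedField N', ?_, ?_, ?_, ?_⟩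
  · rw [← InfiniteGalois.isOpen_iff_finite, hfix]
    exact hN'o
  · rw [← InfiniteGalois.normal_iff_isGalois, hfix]
    exact hnorm
  · rw [IntermediateField.finrank_eq_fixingSubgroup_index, hfix]
    exact hidx
  · intro τ hτ
    rw [← hmem]
    have h1 : r τ ∈ N' := by
      rw [← hfix, IntermediateField.mem_fixingSubgroup_iff]
      intro c hc
      apply em_inj (k' := k') (F := F)
      show em k' F (Sep F) (C (r τ c)) = em k' F (Sep F) (C c)
      rw [← hrc', hτ c hc]
    rw [hN', Subgroup.mem_map] at h1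
    obtain ⟨ν, hν, hντ⟩ := h1
    have h2 : ν⁻¹ * τ ∈ δ'.ker := hker (by rw [MonoidHom.mem_ker, map_mul, map_inv, hντ,
      inv_mul_cancel])
    have h3 := mul_mem hν h2
    rwa [mul_inv_cancel_left] at h3

end Pool.Agent.Helper44.Thin.KMM
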