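import Pool.Agent.Helper55.RL.Def
import Pool.Graph.R_seed8.TH115.GD.Ext

/-!
# Vanishing over a larger field of constants implies vanishing over a smaller one
-/

set_option autoImplicit false
set_option linter.all false

open Polynomial IsDedekindDomain
open scoped Classical

namespace Pool.Agent.Helper44.Thin.RSV

open Pool.Agent.TH115.GD Pool.Agent.Helper55.RL

section a

variable {k k' K F : Type} [Field k] [Field k'] [Algebra k k'] [Field K]
    [Algebra k[X] K] [Field F] [Algebra k'[X] F] [IsFractionRing k'[X] F] [Algebra K F]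
    {k₂ K₂ : Type} [Field k₂] [Algebra k k₂] [Algebra k₂ k'] [IsScalarTower k k₂ k'] [Field K₂]
    [Algebra k₂[X] K₂] [Algebra K₂ F]

theorem alg_sub (hT : IsTower k k' K F) (hT₂ : IsTower k₂ k' K₂ F) (x : K) :
    ∃ x₂ : K₂, algebraMap K F x = algebraMap K₂ F x₂ := by
  haveI := hT.fracK
  have hp : ∀ p : k[X], algebraMap K F (algebraMap k[X] K p) =
      algebraMap K₂ F (algebraMap k₂[X] K₂ (p.map (algebraMap k k₂))) := by
    intro p
    rw [hT.map, hT₂.map, Polynomial.map_map, ← IsScalarTower.algebraMap_eq]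
  obtain ⟨p, q, -, rfl⟩ := IsFractionRing.div_surjective (A := k[X]) x
  exact ⟨algebraMap k₂[X] K₂ (p.map (algebraMap k k₂)) /
    algebraMap k₂[X] K₂ (q.map (algebraMap k k₂)), by rw [map_div₀, map_div₀, hp, hp]⟩

theorem alg_sub' (hT : IsTower k k' K F) (hT₂ : IsTower k₂ k' K₂ F) (x : K) :
    ∃ x₂ : K₂, algebraMap K (Sep F) x = algebraMap K₂ (Sep F) x₂ := by
  obtain ⟨x₂, h⟩ := alg_sub hT hT₂ x
  refine ⟨x₂, ?_⟩
  rw [IsScalarTower.algebraMap_apply K F (Sep F), h, ← IsScalarTower.algebraMap_apply K₂ F (Sep F)]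

/-- The restriction of an automorphism over `K₂` to `K ⊆ K₂`. -/
noncomputable def res (h : ∀ x : K, ∃ x₂ : K₂, algebraMap K (Sep F) x = algebraMap K₂ (Sep F) x₂) :
    (Sep F ≃ₐ[K₂] Sep F) →* (Sep F ≃ₐ[K] Sep F) where
  toFun τ := AlgEquiv.ofRingEquiv (f := τ.toRingEquiv) (by
    intro x
    obtain ⟨x₂, hx⟩ := h x
    rw [hx]
    exact τ.commutes x₂)
  map_one' := by ext x; rfl
  map_mul' σ τ := by ext x; rfl

theorem res_apply
    (h : ∀ x : K, ∃ x₂ : K₂, algebraMap K (Sep F) x = algebraMap K₂ (Sep F) x₂)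
    (τ : Sep F ≃ₐ[K₂] Sep F) (x : Sep F) : res h τ x = τ x := rfl

theorem adj_sub (h : ∀ x : K, ∃ x₂ : K₂, algebraMap K (Sep F) x = algebraMap K₂ (Sep F) x₂)
    {S : Set (Sep F)} {x : Sep F}
    (hx : x ∈ IntermediateField.adjoin K S) : x ∈ IntermediateField.adjoin K₂ S := by
  induction hx using IntermediateField.adjoin_induction with
  | mem x hx => exact IntermediateField.subset_adjoin _ _ hx
  | algebraMap x =>
    obtain ⟨x₂, h⟩ := h x
    rw [h]
    exact (IntermediateField.adjoin K₂ S).algebraMap_mem _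
  | add x y _ _ hx hy => exact add_mem hx hy
  | inv x _ hx => exact inv_mem hx
  | mul x y _ _ hx hy => exact mul_mem hx hy

theorem res_cont (h : ∀ x : K, ∃ x₂ : K₂, algebraMap K (Sep F) x = algebraMap K₂ (Sep F) x₂)
    [Algebra.IsAlgebraic K₂ (Sep F)] :
    Continuous (res (F := F) h) := by
  apply continuous_of_continuousAt_one
  rw [ContinuousAt, map_one]
  intro A hA
  rw [krullTopology_mem_nhds_one_iff] at hA
  obtain ⟨E, hE, hEA⟩ := hA
  rw [Filter.mem_map, krullTopology_mem_nhds_one_iff]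
  obtain ⟨S, hS⟩ := IntermediateField.essFiniteType_iff.1
    (inferInstance : Algebra.EssFiniteType K E)
  refine ⟨IntermediateField.adjoin K₂ (S : Set (Sep F)),
    IntermediateField.finiteDimensional_adjoin fun x _ =>
      Algebra.IsIntegral.isIntegral (R := K₂) x, ?_⟩
  intro σ hσ
  apply hEA
  rw [SetLike.mem_coe, IntermediateField.mem_fixingSubgroup_iff] at hσ ⊢
  intro x hx
  rw [res_apply]
  apply hσ
  apply adj_sub h
  rw [hS]
  exact hx

end a

theorem rsv (p : ℕ) [Fact p.Prime] (k k' F : Type) [Field k] [CharZero k] [Field k']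
    [Algebra k k'] [IsSepClosure k k'] [Field F] [Algebra k'[X] F] [IsFractionRing k'[X] F]
    (k₂ κ : IntermediateField k k') (hle : k₂ ≤ κ) (K₂ K' : Type) [Field K₂] [Algebra k₂[X] K₂]
    [Algebra K₂ F] [Field K'] [Algebra κ[X] K'] [Algebra K' F] (hT₂ : IsTower k₂ k' K₂ F)
    (hT : IsTower κ k' K' F) (S : Set (Sep F)) (P D : k[X])
    (h : VanishL p k' K' F (IntermediateField.adjoin K' S) (P.map (algebraMap k κ))
      (D.map (algebraMap k κ))) :
    VanishL p k' K₂ F (IntermediateField.adjoin K₂ S) (P.map (algebraMap k k₂))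
      (D.map (algebraMap k k₂)) := by
  letI : Algebra k₂ κ := (IntermediateField.inclusion hle).toAlgebra
  haveI : IsScalarTower k₂ κ k' := IsScalarTower.of_algebraMap_eq fun x => rfl
  have hx := alg_sub' (k := k₂) (k₂ := κ) hT₂ hT
  haveI := hT.sep
  haveI := hT.fracK
  haveI : IsSepClosure K' (Sep F) := sepKΩ hT.map
  haveI : Algebra.IsSeparable K' (Sep F) := IsSepClosure.separable
  set r := res (F := F) hx with hr
  have hrc : Continuous r := res_cont hx
  have hrs : ∀ σ : Sep F ≃ₐ[F] Sep F, r (σ.restrictScalars K') = σ.restrictScalars K₂ := by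
    intro σ
    ext x
    rfl
  have hmap : ∀ Q : k[X], (Q.map (algebraMap k κ)).map (algebraMap κ k') =
      (Q.map (algebraMap k k₂)).map (algebraMap k₂ k') := by
    intro Q
    rw [Polynomial.map_map, Polynomial.map_map, ← IsScalarTower.algebraMap_eq,
      ← IsScalarTower.algebraMap_eq]
  have hmap2 : (P.map (algebraMap k κ) * D.map (algebraMap k κ)).map (algebraMap κ k') =
      (P.map (algebraMap k k₂) * D.map (algebraMap k k₂)).map (algebraMap k₂ k') := by
    rw [Polynomial.map_mul, Polynomial.map_mul, hmap, hmap]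
  have hae : ∀ (Q : k[X]) (θ : k'), aeval θ (Q.map (algebraMap k κ)) =
      aeval θ (Q.map (algebraMap k k₂)) := by
    intro Q θ
    rw [aeval_map_algebraMap, aeval_map_algebraMap]
  intro d ρ hρ hpro hun hno c hc hloc
  have hact : ∀ (σ : Sep F ≃ₐ[F] Sep F) (y : Fin d → ℚ_[p]),
      actQ (ρ.comp r) (σ.restrictScalars K') y = actQ ρ (σ.restrictScalars K₂) y := by
    intro σ y
    unfold actQ
    rw [MonoidHom.comp_apply, hrs]
  have hcob : ∀ v, LocCobAt k' ρ c v → LocCobAt k' (ρ.comp r) c v := by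
    rintro v ⟨ι, y, hy⟩
    exact ⟨ι, y, fun σ hσ => by rw [hy σ hσ, hact]⟩
  obtain ⟨y, hy⟩ := h d (ρ.comp r) (hρ.comp hrc) (by
      intro σ hσ
      obtain ⟨m, hm⟩ := hpro (r σ) (fun x hx' => hσ x (adj_sub hx hx'))
      refine ⟨m, fun i j => ?_⟩
      have := hm i j
      rw [← map_pow] at this
      exact this) (by
      intro v hv ι σ hσ
      rw [MonoidHom.comp_apply, hrs]
      rw [hmap2] at hv
      exact hun v hv ι σ hσ) (by
      intro θ hθ ι y hy
      rw [hae] at hθ
      exact hno θ hθ ι y fun σ hσ => by rw [← hact]; exact hy σ hσ) c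
    { cont := hc.cont
      mul := fun σ τ => by rw [hact]; exact hc.mul σ τ
      fixed := fun τ => by
        obtain ⟨y, hy⟩ := hc.fixed (r τ)
        refine ⟨y, fun σ σ' hσ => ?_⟩
        rw [hact]
        exact hy σ σ' hσ }
    ⟨fun v hv => by
        rw [hmap2] at hv
        exact hcob v (hloc.1 v hv), fun θ hθ => by
        rw [hae] at hθ
        exact hcob _ (hloc.2 θ hθ)⟩
  exact ⟨y, fun σ => by rw [hy, hact]⟩

end Pool.Agent.Helper44.Thin.RSV
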