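import Pool.Agent.Helper55.RT.Spec
import Pool.Agent.Helper44.Thin.RSV0

/-!
# RSV: vanishing over a larger field of constants implies vanishing over a smaller one
-/

set_option autoImplicit false
set_option linter.all false

namespace Pool.Agent.Helper44.Thin.RSV

theorem main : Pool.Agent.Helper55.RT.Q_RSV := by
  intro p _ k k' F _ _ _ _ _ _ _ _ k₂ κ hle K₂ K' _ _ _ _ _ _ hT₂ hT S P D h
  exact rsv p k k' F k₂ κ hle K₂ K' hT₂ hT S P D h

end Pool.Agent.Helper44.Thin.RSV
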